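import Mathlib

set_option autoImplicit false

namespace Pool.Agent.Results.MP_c59173_co.BoxFails

open Pointwise

/-- The ordered product set `T 0 * T 1 * ... * T (n-1)` (pointwise product of finite sets). -/
def prodSet {G : Type} [Group G] [DecidableEq G] {n : ℕ} (T : Fin n → Finset G) : Finset G :=
  (List.ofFn T).prod

/-- `N S A`: the largest size of a product set keeping `S i` for `i ∈ A` and replacing `S i` by a
singleton `{x i}`, `x i ∈ S i`, for `i ∉ A`. -/
def N {G : Type} [Group G] [DecidableEq G] {n : ℕ} (S : Fin n → Finset G) (A : Finset (Fin n)) :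
    ℕ :=
  (Fintype.piFinset S).sup fun x => (prodSet fun i => if i ∈ A then S i else {x i}).card

abbrev D := DihedralGroup 4
abbrev G4 := D × D × D × D

def X : D := DihedralGroup.sr 0
def Z : D := DihedralGroup.sr 1

def ev (a : D) : Finset G4 :=
  {(1, 1, 1, 1), (a, a, 1, 1), (a, 1, a, 1), (a, 1, 1, a), (1, a, a, 1), (1, a, 1, a),
    (1, 1, a, a), (a, a, a, a)}

def un (a : D) : Finset G4 := {(a, 1, 1, 1), (1, a, 1, 1), (1, 1, a, 1), (1, 1, 1, a)}

def S : Fin 4 → Finset G4 := ![ev X, un Z, un X, ev Z]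

theorem big : 257 ≤ (ev X * (un Z * (un X * (ev Z * 1)))).card := by decide +kernel

theorem s13a : (ev X * ({(Z, 1, 1, 1)} * un X)).card ≤ 16 := by decide +kernel
theorem s13b : (ev X * ({(1, Z, 1, 1)} * un X)).card ≤ 16 := by decide +kernel
theorem s13c : (ev X * ({(1, 1, Z, 1)} * un X)).card ≤ 16 := by decide +kernel
theorem s13d : (ev X * ({(1, 1, 1, Z)} * un X)).card ≤ 16 := by decide +kernel
theorem s24a : (un Z * ({(X, 1, 1, 1)} * ev Z)).card ≤ 16 := by decide +kernel
theorem s24b : (un Z * ({(1, X, 1, 1)} * ev Z)).card ≤ 16 := by decide +kernel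
theorem s24c : (un Z * ({(1, 1, X, 1)} * ev Z)).card ≤ 16 := by decide +kernel
theorem s24d : (un Z * ({(1, 1, 1, X)} * ev Z)).card ≤ 16 := by decide +kernel

theorem s13 : ∀ a ∈ un Z, ∀ b : G4, (ev X * ({a} * (un X * ({b} * 1)))).card ≤ 16 := by
  intro a ha b
  rw [mul_one, ← mul_assoc, ← mul_assoc, Finset.card_mul_singleton, mul_assoc]
  simp only [un, Finset.mem_insert, Finset.mem_singleton] at ha
  rcases ha with rfl | rfl | rfl | rfl
  exacts [s13a, s13b, s13c, s13d]

theorem s24 : ∀ a : G4, ∀ b ∈ un X,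
    (({a} : Finset G4) * (un Z * ({b} * (ev Z * 1)))).card ≤ 16 := by
  intro a b hb
  rw [mul_one, Finset.card_singleton_mul]
  simp only [un, Finset.mem_insert, Finset.mem_singleton] at hb
  rcases hb with rfl | rfl | rfl | rfl
  exacts [s24a, s24b, s24c, s24d]

theorem prod4 (T : Fin 4 → Finset G4) : prodSet T = T 0 * (T 1 * (T 2 * (T 3 * 1))) := by
  simp [prodSet, List.ofFn_succ]

theorem result :
    ¬ (∀ (G : Type) [Group G] [DecidableEq G] (n : ℕ), 1 ≤ n → ∀ S : Fin n → Finset G,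
        (∀ i, (S i).Nonempty) →
        ∃ l : Fin n → ℝ, (∀ i, 0 < l i) ∧ ∏ i, l i = ((prodSet S).card : ℝ) ∧
          ∀ A : Finset (Fin n), ∏ i ∈ A, l i ≤ (N S A : ℝ)) := by
  intro h
  obtain ⟨l, hpos, hprod, hA⟩ := h G4 4 (by norm_num) S (by decide +kernel)
  have h13 : N S {0, 2} ≤ 16 := by
    unfold N
    refine Finset.sup_le fun x hx => ?_
    rw [Fintype.mem_piFinset] at hx
    rw [prod4]
    exact s13 (x 1) (hx 1) (x 3)
  have h24 : N S {1, 3} ≤ 16 := by
    unfold N
    refine Finset.sup_le fun x hx => ?_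
    rw [Fintype.mem_piFinset] at hx
    rw [prod4]
    exact s24 (x 0) (x 2) (hx 2)
  have a1 := hA {0, 2}
  have a2 := hA {1, 3}
  rw [Finset.prod_pair (by decide)] at a1 a2
  have b1 : (N S {0, 2} : ℝ) ≤ 16 := by exact_mod_cast h13
  have b2 : (N S {1, 3} : ℝ) ≤ 16 := by exact_mod_cast h24
  have hb : (257 : ℝ) ≤ ((prodSet S).card : ℝ) := by
    have e : prodSet S = ev X * (un Z * (un X * (ev Z * 1))) := prod4 S
    have e2 : 257 ≤ (prodSet S).card := by rw [e]; exact big
    generalize (prodSet S).card = m at e2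
    exact_mod_cast e2
  generalize ((prodSet S).card : ℝ) = m at hb hprod
  generalize (N S {0, 2} : ℝ) = m1 at a1 b1
  generalize (N S {1, 3} : ℝ) = m2 at a2 b2
  rw [Fin.prod_univ_four] at hprod
  have p1 := mul_pos (hpos 0) (hpos 2)
  have p2 := mul_pos (hpos 1) (hpos 3)
  have e : l 0 * l 1 * l 2 * l 3 = (l 0 * l 2) * (l 1 * l 3) := by ring
  have f : (l 0 * l 2) * (l 1 * l 3) ≤ 16 * 16 :=
    mul_le_mul (a1.trans b1) (a2.trans b2) p2.le (by norm_num)
  linarith

end Pool.Agent.Results.MP_c59173_co.BoxFails
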